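import Pool.Agent.W670.ML.Defs2

set_option autoImplicit false

/-!
# Project ML2, part DV: the different of `M/A` divides the different of `B/K`
-/

namespace Pool.Agent.W75.ML2.DV

open NumberField Pool.Agent.W670.ML

/-- Integrality over `ℤ` means lying in the image of the ring of integers. -/
lemma isInt_iff {L : Type} [Field L] [NumberField L] (x : L) :
    IsIntegral ℤ x ↔ ∃ y : 𝓞 L, algebraMap (𝓞 L) L y = x :=
  ⟨fun h => ⟨⟨x, h⟩, rfl⟩, fun ⟨y, hy⟩ => hy ▸ y.2⟩

lemma mem_dual {K L : Type} [Field K] [NumberField K] [Field L] [NumberField L] [Algebra K L]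
    (x : L) :
    x ∈ (Submodule.traceDual (𝓞 K) K (1 : Submodule (𝓞 L) L)) ↔
      ∀ y : L, IsIntegral ℤ y → IsIntegral ℤ (Algebra.trace K L (x * y)) := by
  rw [Submodule.mem_traceDual]
  constructor
  · intro h y hy
    have h1 : y ∈ (1 : Submodule (𝓞 L) L) := by
      rw [Submodule.mem_one]
      exact (isInt_iff y).1 hy
    have h2 := h y h1
    rw [Algebra.traceForm_apply] at h2
    obtain ⟨w, hw⟩ := h2
    rw [isInt_iff]
    exact ⟨w, hw⟩
  · intro h y hy
    rw [Submodule.mem_one] at hy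
    rw [Algebra.traceForm_apply]
    obtain ⟨w, hw⟩ := (isInt_iff _).1 (h y ((isInt_iff y).2 hy))
    exact ⟨w, hw⟩

lemma mem_diff {K L : Type} [Field K] [NumberField K] [Field L] [NumberField L] [Algebra K L]
    (z : 𝓞 L) :
    z ∈ differentIdeal (𝓞 K) (𝓞 L) ↔
      ∀ x : L, (∀ y : L, IsIntegral ℤ y → IsIntegral ℤ (Algebra.trace K L (x * y))) →
        IsIntegral ℤ (algebraMap (𝓞 L) L z * x) := by
  have h0 : z ∈ differentIdeal (𝓞 K) (𝓞 L) ↔
      algebraMap (𝓞 L) L z ∈ IsLocalization.coeSubmodule L (differentIdeal (𝓞 K) (𝓞 L)) := by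
    rw [IsLocalization.mem_coeSubmodule]
    constructor
    · intro h
      exact ⟨z, h, rfl⟩
    · rintro ⟨w, hw, he⟩
      rwa [← RingOfIntegers.coe_injective he]
  rw [h0, coeSubmodule_differentIdeal (𝓞 K) K, Submodule.mem_div_iff_forall_mul_mem]
  constructor
  · intro h x hx
    have := h x ((mem_dual x).2 hx)
    rw [Submodule.mem_one] at this
    exact (isInt_iff _).2 this
  · intro h x hx
    rw [Submodule.mem_one]
    exact (isInt_iff _).1 (h x ((mem_dual x).1 hx))

theorem dv (h1 : S_DB) (h2 : S_DE) : S_DV := by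
  intro K A B M _ _ _ _ _ _ _ _ _ _ _ _ _ _ _ hgen
  rw [Ideal.map_le_iff_le_comap]
  intro z hz
  rw [Ideal.mem_comap, mem_diff]
  intro x hx
  obtain ⟨s, β, γ, hβ, hγ, hβγ⟩ := h1 K B
  have h3 := h2 K A B M hgen s β γ hβγ x
  rw [mem_diff] at hz
  have h4 : algebraMap (𝓞 M) M (algebraMap (𝓞 B) (𝓞 M) z) * x =
      ∑ j, algebraMap A M (Algebra.trace A M (x * algebraMap B M (β j))) *
        algebraMap B M (algebraMap (𝓞 B) B z * γ j) := by
    conv_lhs => rw [h3]
    rw [Finset.mul_sum]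
    refine Finset.sum_congr rfl fun j _ => ?_
    rw [map_mul (algebraMap B M) (algebraMap (𝓞 B) B z) (γ j)]
    have : algebraMap (𝓞 M) M (algebraMap (𝓞 B) (𝓞 M) z) =
        algebraMap B M (algebraMap (𝓞 B) B z) := rfl
    rw [this]
    ring
  rw [h4]
  refine IsIntegral.sum _ fun j _ => ?_
  refine IsIntegral.mul ?_ ?_
  · exact (hx _ ((hβ j).algebraMap)).algebraMap
  · exact (hz (γ j) (hγ j)).algebraMap

end Pool.Agent.W75.ML2.DV
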